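import Pool.Agent.Work.MP_65e34f.Interface

/-!
# MP_65e34f_al : basic lemmas for the blocks
-/

namespace Pool.FG

open Matrix
open scoped LinearAlgebra.Projectivization

section
variable {K : Type} [Field K]

/-! ### entries, traces -/

lemma tr_eq_trace (x : SL K) : tr x = (x : M2 K).trace := by
  simp [tr, Matrix.trace_fin_two]

lemma det_eq (x : SL K) : x.1 0 0 * x.1 1 1 - x.1 0 1 * x.1 1 0 = 1 := by
  have := x.2
  rwa [Matrix.det_fin_two] at this

@[simp] lemma tr_one : tr (1 : SL K) = 2 := by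
  simp [tr]; norm_num

@[simp] lemma tr_neg (x : SL K) : tr (-x) = -tr x := by
  simp [tr]; ring

@[simp] lemma tr_inv (x : SL K) : tr x⁻¹ = tr x := by
  simp [tr, Matrix.adjugate_fin_two]; ring

lemma tr_mul_comm (x y : SL K) : tr (x * y) = tr (y * x) := by
  rw [tr_eq_trace, tr_eq_trace, Matrix.SpecialLinearGroup.coe_mul,
    Matrix.SpecialLinearGroup.coe_mul, Matrix.trace_mul_comm]

lemma tr_conj (x g : SL K) : tr (g * x * g⁻¹) = tr x := by
  rw [tr_mul_comm, ← mul_assoc, inv_mul_cancel, one_mul]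

/-- trace relation `tr (xy) + tr (x⁻¹ y) = tr x tr y` -/
lemma tr_inv_mul (x y : SL K) : tr (x⁻¹ * y) = tr x * tr y - tr (x * y) := by
  simp [tr, Matrix.adjugate_fin_two, Matrix.mul_apply, Fin.sum_univ_two]; ring

/-- Cayley–Hamilton -/
lemma mul_self_eq (x : SL K) : (x : M2 K) * (x : M2 K) = tr x • (x : M2 K) - 1 := by
  have h := det_eq x
  ext i j
  fin_cases i <;> fin_cases j <;>
    simp [tr, Matrix.mul_apply, Fin.sum_univ_two] <;>
      first | linear_combination (-1 : K) * h | linear_combination h | ring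

/-- `x⁻¹ = tr x - x` -/
lemma inv_eq (x : SL K) : ((x⁻¹ : SL K) : M2 K) = tr x • (1 : M2 K) - (x : M2 K) := by
  ext i j
  fin_cases i <;> fin_cases j <;> simp [tr, Matrix.adjugate_fin_two]

/-- `κ` is the trace of the commutator -/
lemma tr_cm (x y : SL K) : tr (cm x y) = kp x y := by
  have hx := det_eq x
  have hy := det_eq y
  simp [cm, kp, kap, tr, Matrix.SpecialLinearGroup.coe_mul, Matrix.SpecialLinearGroup.coe_inv,
    Matrix.adjugate_fin_two, Matrix.mul_apply, Fin.sum_univ_two]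
  linear_combination (x.1 0 0 + x.1 1 1) ^ 2 * hy + (y.1 0 0 + y.1 1 1) ^ 2 * hx -
    2 * (x.1 0 0 * x.1 1 1 - x.1 0 1 * x.1 1 0) * hy - 2 * hx

/-! ### scalars -/

lemma Sc_one : Sc (1 : SL K) := Or.inl rfl
lemma Sc_neg_one : Sc (-1 : SL K) := Or.inr rfl

lemma Sc.neg {x : SL K} (h : Sc x) : Sc (-x) := by
  rcases h with rfl | rfl
  · exact Or.inr rfl
  · left; simp

lemma Sc_neg_iff {x : SL K} : Sc (-x) ↔ Sc x := ⟨fun h => by simpa using h.neg, Sc.neg⟩

lemma Sc.mul {x y : SL K} (hx : Sc x) (hy : Sc y) : Sc (x * y) := by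
  rcases hx with rfl | rfl
  · simpa using hy
  · simpa using hy.neg

lemma Sc.inv {x : SL K} (h : Sc x) : Sc x⁻¹ := by
  rcases h with rfl | rfl
  · left; simp
  · right; simp

lemma Sc_inv_iff {x : SL K} : Sc x⁻¹ ↔ Sc x := ⟨fun h => by simpa using h.inv, Sc.inv⟩

lemma Sc.pow {x : SL K} (h : Sc x) (n : ℕ) : Sc (x ^ n) := by
  induction n with
  | zero => simpa using Sc_one
  | succ n ih => rw [pow_succ]; exact ih.mul h

lemma Sc.comm {x : SL K} (h : Sc x) (y : SL K) : x * y = y * x := by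
  rcases h with rfl | rfl <;> simp

lemma Sc_conj_iff {x g : SL K} : Sc (g * x * g⁻¹) ↔ Sc x := by
  constructor
  · intro h
    have : x = g⁻¹ * (g * x * g⁻¹) * g := by group
    rw [this, mul_assoc, h.comm g, ← mul_assoc, inv_mul_cancel, one_mul]
    exact h
  · intro h
    rw [← h.comm g, mul_assoc, mul_inv_cancel, mul_one]
    exact h

lemma Sc_mul_comm {x y : SL K} : Sc (x * y) ↔ Sc (y * x) := by
  have : y * x = x⁻¹ * (x * y) * (x⁻¹)⁻¹ := by group
  rw [this, Sc_conj_iff]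

/-- `x` is scalar iff its off-diagonal entries vanish and the diagonal entries agree -/
lemma Sc_iff (x : SL K) : Sc x ↔ x.1 0 1 = 0 ∧ x.1 1 0 = 0 ∧ x.1 0 0 = x.1 1 1 := by
  constructor
  · rintro (rfl | rfl) <;> simp
  · rintro ⟨h1, h2, h3⟩
    have h := det_eq x
    rw [h1, zero_mul, sub_zero, ← h3] at h
    have h' : (x.1 0 0 - 1) * (x.1 0 0 + 1) = 0 := by linear_combination h
    rcases mul_eq_zero.mp h' with h' | h'
    · left
      have h0 : x.1 0 0 = 1 := by linear_combination h'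
      ext i j
      fin_cases i <;> fin_cases j <;> simp [h0, h1, h2, ← h3]
    · right
      have h0 : x.1 0 0 = -1 := by linear_combination h'
      ext i j
      fin_cases i <;> fin_cases j <;> simp [h0, h1, h2, ← h3]

lemma sc_mem {H : Subgroup (SL K)} (h1 : -1 ∈ H) {x : SL K} (h : Sc x) : x ∈ H := by
  rcases h with rfl | rfl
  · exact H.one_mem
  · exact h1

lemma ncard_Sc_le : Set.ncard {x : SL K | Sc x} ≤ 2 := by
  have : {x : SL K | Sc x} ⊆ {1, -1} := by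
    rintro x (rfl | rfl) <;> simp
  exact (Set.ncard_le_ncard this (Set.toFinite _)).trans (Set.ncard_insert_le _ _ |>.trans (by simp))

/-! ### subgroups -/

lemma neg_one_mem_Bor (v : Fin 2 → K) (hv : v ≠ 0) : (-1 : SL K) ∈ Bor v hv :=
  ⟨-1, by ext i; fin_cases i <;> simp⟩

lemma neg_one_mem_Nor (y : M2 K) : (-1 : SL K) ∈ Nor y := Or.inl (by simp)

lemma neg_one_mem_HL (L : Subfield K) (g : GL (Fin 2) K) : (-1 : SL K) ∈ HL L g := by
  refine ⟨-1, 1, ?_⟩
  rw [inc_one, mul_one]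
  simp

lemma neg_one_mem_gn {n : ℕ} (t : List (SL K) × (Fin n → SL K)) : (-1 : SL K) ∈ gn t :=
  Subgroup.subset_closure (by simp)

lemma gn_le_iff {n : ℕ} {t : List (SL K) × (Fin n → SL K)} {H : Subgroup (SL K)} :
    gn t ≤ H ↔ (∀ x ∈ t.1, x ∈ H) ∧ (∀ j, t.2 j ∈ H) ∧ -1 ∈ H := by
  rw [gn, Subgroup.closure_le]
  constructor
  · intro h
    exact ⟨fun x hx => h (by simp [hx]), fun j => h (by simp), h (by simp)⟩
  · rintro ⟨h1, h2, h3⟩ x hx
    rcases hx with (hx | ⟨j, rfl⟩) | hx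
    · exact h1 x hx
    · exact h2 j
    · rw [Set.mem_singleton_iff] at hx
      rw [hx]; exact h3

lemma mem_gn_left {n : ℕ} {t : List (SL K) × (Fin n → SL K)} {x : SL K} (h : x ∈ t.1) : x ∈ gn t :=
  Subgroup.subset_closure (by simp [h])

lemma mem_gn_right {n : ℕ} (t : List (SL K) × (Fin n → SL K)) (j : Fin n) : t.2 j ∈ gn t :=
  Subgroup.subset_closure (by simp)

/-! ### lists -/

@[simp] lemma Xs_nil (H : Subgroup (SL K)) : Xs [] H = {[]} := by
  ext xs; simp [Xs]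

lemma mem_Xs_cons {m : ℕ} {ms : List ℕ} {H : Subgroup (SL K)} {xs : List (SL K)} :
    xs ∈ Xs (m :: ms) H ↔ ∃ x ys, xs = x :: ys ∧ x ∈ H ∧ Sc (x ^ m) ∧ ys ∈ Xs ms H := by
  constructor
  · intro h
    cases h with
    | cons h1 h2 => exact ⟨_, _, rfl, h1.1, h1.2, h2⟩
  · rintro ⟨x, ys, rfl, h1, h2, h3⟩
    exact List.Forall₂.cons ⟨h1, h2⟩ h3

lemma cons_mem_Xs {m : ℕ} {ms : List ℕ} {H : Subgroup (SL K)} {x : SL K} {ys : List (SL K)} :
    x :: ys ∈ Xs (m :: ms) H ↔ x ∈ H ∧ Sc (x ^ m) ∧ ys ∈ Xs ms H := by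
  rw [mem_Xs_cons]
  constructor
  · rintro ⟨x', ys', h, h1, h2, h3⟩
    obtain ⟨rfl, rfl⟩ := List.cons.inj h
    exact ⟨h1, h2, h3⟩
  · rintro ⟨h1, h2, h3⟩
    exact ⟨x, ys, rfl, h1, h2, h3⟩

lemma length_of_mem_Xs {ms : List ℕ} {H : Subgroup (SL K)} {xs : List (SL K)} (h : xs ∈ Xs ms H) :
    xs.length = ms.length := (List.Forall₂.length_eq h).symm

lemma mem_of_mem_Xs {ms : List ℕ} {H : Subgroup (SL K)} {xs : List (SL K)} (h : xs ∈ Xs ms H) :
    ∀ x ∈ xs, x ∈ H := by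
  induction ms generalizing xs with
  | nil => simp at h; subst h; simp
  | cons m ms ih =>
    obtain ⟨x, ys, rfl, h1, h2, h3⟩ := mem_Xs_cons.mp h
    intro y hy
    rcases List.mem_cons.mp hy with rfl | hy
    · exact h1
    · exact ih h3 y hy

lemma prod_mem_of_mem_Xs {ms : List ℕ} {H : Subgroup (SL K)} {xs : List (SL K)} (h : xs ∈ Xs ms H) :
    xs.prod ∈ H := H.list_prod_mem (mem_of_mem_Xs h)

lemma Xs_mono {ms : List ℕ} {H H' : Subgroup (SL K)} (hH : H ≤ H') : Xs ms H ⊆ Xs ms H' := by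
  intro xs h
  exact List.Forall₂.imp (fun m x hx => ⟨hH hx.1, hx.2⟩) h

/-- membership in `Xs ms H` from membership in `Xs ms ⊤` -/
lemma mem_Xs_of_forall {ms : List ℕ} {H H' : Subgroup (SL K)} {xs : List (SL K)}
    (h : xs ∈ Xs ms H') (hH : ∀ x ∈ xs, x ∈ H) : xs ∈ Xs ms H := by
  induction ms generalizing xs with
  | nil => simpa using h
  | cons m ms ih =>
    obtain ⟨x, ys, rfl, h1, h2, h3⟩ := mem_Xs_cons.mp h
    exact cons_mem_Xs.mpr ⟨hH x (by simp), h2, ih h3 (fun y hy => hH y (by simp [hy]))⟩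

lemma mem_Tup_of_gn_le {W : Wd} {ms : List ℕ} {H H' : Subgroup (SL K)}
    {t : List (SL K) × (Fin W.n → SL K)} (h : t ∈ Tup W ms H') (hg : gn t ≤ H) : t ∈ Tup W ms H := by
  rw [gn_le_iff] at hg
  exact ⟨mem_Xs_of_forall h.1 hg.1, hg.2.1, h.2.2⟩

lemma gn_le_of_mem_Tup {W : Wd} {ms : List ℕ} {H : Subgroup (SL K)}
    {t : List (SL K) × (Fin W.n → SL K)} (h1 : -1 ∈ H) (h : t ∈ Tup W ms H) : gn t ≤ H :=
  gn_le_iff.mpr ⟨mem_of_mem_Xs h.1, h.2.1, h1⟩

lemma Tup_mono {W : Wd} {ms : List ℕ} {H H' : Subgroup (SL K)} (hH : H ≤ H') :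
    Tup W ms H ⊆ Tup W ms H' := fun _ h => ⟨Xs_mono hH h.1, fun j => hH (h.2.1 j), h.2.2⟩

/-! ### finiteness -/

instance [Finite K] : Finite (SL K) := Subtype.finite

lemma Xs_finite [Finite K] (ms : List ℕ) (H : Subgroup (SL K)) : (Xs ms H).Finite := by
  apply Set.Finite.subset (List.finite_length_eq (SL K) ms.length)
  intro xs h
  exact length_of_mem_Xs h

lemma Tup_finite [Finite K] (W : Wd) (ms : List ℕ) (H : Subgroup (SL K)) : (Tup W ms H).Finite := by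
  apply Set.Finite.subset ((Xs_finite ms H).prod (Set.finite_univ : (Set.univ : Set (Fin W.n → SL K)).Finite))
  intro t h
  exact ⟨h.1, trivial⟩

lemma Bad_subset (W : Wd) (ms : List ℕ) : Bad W ms K ⊆ Tup W ms (⊤ : Subgroup (SL K)) :=
  fun _ h => h.1

lemma Bad_finite [Finite K] (W : Wd) (ms : List ℕ) : (Bad W ms K).Finite :=
  (Tup_finite W ms ⊤).subset (Bad_subset W ms)

lemma two_le_card [Finite K] : 2 ≤ Nat.card K := by
  have := Finite.one_lt_card (α := K)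
  omega

/-- `Trs` and `Liv` -/
lemma Liv_iff_Trs {m : ℕ} : Liv K m ↔ (Trs K m).Nonempty := by
  constructor
  · rintro ⟨x, h1, h2⟩; exact ⟨_, x, h1, h2, rfl⟩
  · rintro ⟨_, x, h1, h2, _⟩; exact ⟨x, h1, h2⟩

lemma kap_swap (a b c : K) : kap b a c = kap a b c := by unfold kap; ring
lemma kap_rot (a b c : K) : kap b c a = kap a b c := by unfold kap; ring

lemma Sc.tr_eq {x : SL K} (h : Sc x) : tr x = 2 ∨ tr x = -2 := by
  rcases h with rfl | rfl
  · left; simp
  · right; simp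

end

/-! ### fibre counting -/

lemma ncard_le_mul_of_fiber {α β : Type*} {s : Set α} {t : Set β} (hs : s.Finite) (ht : t.Finite)
    (f : α → β) (hf : ∀ a ∈ s, f a ∈ t) (B : ℕ) (h : ∀ b ∈ t, Set.ncard {a | a ∈ s ∧ f a = b} ≤ B) :
    s.ncard ≤ t.ncard * B := by
  classical
  rw [Set.ncard_eq_toFinset_card s hs, Set.ncard_eq_toFinset_card t ht, mul_comm]
  apply Finset.card_le_mul_card_image_of_maps_to (f := f)
  · intro a ha; simpa using hf a (by simpa using ha)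
  · intro b hb
    have := h b (by simpa using hb)
    rw [← Set.ncard_coe_finset]
    refine le_trans (le_of_eq ?_) this
    congr 1
    ext a; simp

lemma mul_le_ncard_of_fiber {α β : Type*} {s : Set α} {t : Set β} (hs : s.Finite) (ht : t.Finite)
    (f : α → β) (B : ℕ) (h : ∀ b ∈ t, B ≤ Set.ncard {a | a ∈ s ∧ f a = b}) :
    t.ncard * B ≤ s.ncard := by
  classical
  have h1 : t.ncard * B ≤ Set.ncard {a | a ∈ s ∧ f a ∈ t} := by
    have hs' : {a | a ∈ s ∧ f a ∈ t}.Finite := hs.subset (fun a ha => ha.1)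
    rw [Set.ncard_eq_toFinset_card _ hs', Set.ncard_eq_toFinset_card t ht, mul_comm]
    apply Finset.mul_card_image_le_card_of_maps_to (f := f)
    · intro a ha; simpa using (by simpa using ha : a ∈ s ∧ f a ∈ t).2
    · intro b hb
      have hb' : b ∈ t := by simpa using hb
      have := h b hb'
      rw [← Set.ncard_coe_finset]
      refine le_trans this (le_of_eq ?_)
      congr 1
      ext a
      simp only [Set.mem_ofPred_eq, Finset.coe_filter, Set.Finite.mem_toFinset]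
      constructor
      · rintro ⟨ha, rfl⟩; exact ⟨⟨ha, hb'⟩, rfl⟩
      · rintro ⟨⟨ha, _⟩, rfl⟩; exact ⟨ha, rfl⟩
  exact h1.trans (Set.ncard_le_ncard (fun a ha => ha.1) hs)

/-- a product set, both coordinates depending -/
lemma ncard_prod_le {α β : Type*} {s : Set α} (hs : s.Finite) (T : α → Set β)
    (hT : ∀ a ∈ s, (T a).Finite) (B : ℕ) (h : ∀ a ∈ s, (T a).ncard ≤ B) :
    Set.ncard {w : α × β | w.1 ∈ s ∧ w.2 ∈ T w.1} ≤ s.ncard * B := by
  have hfin : {w : α × β | w.1 ∈ s ∧ w.2 ∈ T w.1}.Finite := by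
    have : {w : α × β | w.1 ∈ s ∧ w.2 ∈ T w.1} ⊆ ⋃ a ∈ s, (fun b => (a, b)) '' (T a) := by
      rintro ⟨a, b⟩ ⟨ha, hb⟩
      simp only [Set.mem_iUnion]
      exact ⟨a, ha, b, hb, rfl⟩
    exact (hs.biUnion fun a ha => (hT a ha).image _).subset this
  apply ncard_le_mul_of_fiber hfin hs Prod.fst (fun w hw => hw.1)
  intro a ha
  refine le_trans ?_ (h a ha)
  have : {w : α × β | w ∈ {w : α × β | w.1 ∈ s ∧ w.2 ∈ T w.1} ∧ w.1 = a} ⊆ (fun b => (a, b)) '' (T a) := by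
    rintro ⟨a', b⟩ ⟨⟨_, hb⟩, rfl⟩
    exact ⟨b, hb, rfl⟩
  exact (Set.ncard_le_ncard this ((hT a ha).image _)).trans (Set.ncard_image_le (hT a ha))

lemma le_ncard_prod {α β : Type*} {s : Set α} (hs : s.Finite) (T : α → Set β)
    (hT : ∀ a ∈ s, (T a).Finite) (B : ℕ) (h : ∀ a ∈ s, B ≤ (T a).ncard) :
    s.ncard * B ≤ Set.ncard {w : α × β | w.1 ∈ s ∧ w.2 ∈ T w.1} := by
  have hfin : {w : α × β | w.1 ∈ s ∧ w.2 ∈ T w.1}.Finite := by
    have : {w : α × β | w.1 ∈ s ∧ w.2 ∈ T w.1} ⊆ ⋃ a ∈ s, (fun b => (a, b)) '' (T a) := by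
      rintro ⟨a, b⟩ ⟨ha, hb⟩
      simp only [Set.mem_iUnion]
      exact ⟨a, ha, b, hb, rfl⟩
    exact (hs.biUnion fun a ha => (hT a ha).image _).subset this
  apply mul_le_ncard_of_fiber hfin hs Prod.fst
  intro a ha
  refine (h a ha).trans ?_
  have h2 : ((fun b => (a, b)) '' (T a)).ncard = (T a).ncard :=
    Set.ncard_image_of_injective _ (fun b c hbc => (Prod.ext_iff.mp hbc).2)
  rw [← h2]
  apply Set.ncard_le_ncard _ (hfin.subset (fun w hw => hw.1))
  rintro _ ⟨b, hb, rfl⟩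
  exact ⟨⟨ha, hb⟩, rfl⟩

end Pool.FG
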