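import Mathlib

/-!
# MP_65e34f_al : definitions

Random homomorphisms of Fuchsian groups into the groups `PSL_2(q)`.
-/

namespace Pool.FG

open Matrix

/-- the commutator `[a,b] = a b a⁻¹ b⁻¹` -/
def cm {G : Type} [Group G] (a b : G) : G := a * b * a⁻¹ * b⁻¹

/-! ## Fuchsian groups, `P_Γ(G)`, good pairs -/

/-- generators of an oriented Fuchsian group: `a_i, b_i` (`i < g`), `x_i` (`i < d`), `y_j` (`j < s`) -/
inductive GenO (g d s : ℕ) : Type
  | a (i : Fin g) : GenO g d s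
  | b (i : Fin g) : GenO g d s
  | x (i : Fin d) : GenO g d s
  | y (j : Fin s) : GenO g d s

/-- generators of a non-oriented Fuchsian group: `a_i` (`i < g`), `x_i` (`i < d`), `y_j` (`j < s`) -/
inductive GenN (g d s : ℕ) : Type
  | a (i : Fin g) : GenN g d s
  | x (i : Fin d) : GenN g d s
  | y (j : Fin s) : GenN g d s

/-- relators `x_i^{m_i}` and `x_1 ⋯ x_d y_1 ⋯ y_s [a_1,b_1] ⋯ [a_g,b_g]` -/
def relO (g d s : ℕ) (m : Fin d → ℕ) : Set (FreeGroup (GenO g d s)) :=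
  {w | (∃ i, w = (FreeGroup.of (GenO.x i)) ^ (m i)) ∨
    w = (List.ofFn fun i : Fin d => FreeGroup.of (GenO.x i)).prod *
        (List.ofFn fun j : Fin s => FreeGroup.of (GenO.y j)).prod *
        (List.ofFn fun i : Fin g => cm (FreeGroup.of (GenO.a i)) (FreeGroup.of (GenO.b i))).prod}

/-- relators `x_i^{m_i}` and `x_1 ⋯ x_d y_1 ⋯ y_s a_1^2 ⋯ a_g^2` -/
def relN (g d s : ℕ) (m : Fin d → ℕ) : Set (FreeGroup (GenN g d s)) :=
  {w | (∃ i, w = (FreeGroup.of (GenN.x i)) ^ (m i)) ∨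
    w = (List.ofFn fun i : Fin d => FreeGroup.of (GenN.x i)).prod *
        (List.ofFn fun j : Fin s => FreeGroup.of (GenN.y j)).prod *
        (List.ofFn fun i : Fin g => (FreeGroup.of (GenN.a i)) ^ 2).prod}

/-- the oriented Fuchsian group of genus `g` -/
abbrev FuchsO (g d s : ℕ) (m : Fin d → ℕ) : Type := PresentedGroup (relO g d s m)

/-- the non-oriented Fuchsian group of genus `g` -/
abbrev FuchsN (g d s : ℕ) (m : Fin d → ℕ) : Type := PresentedGroup (relN g d s m)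

/-- `P_Γ(G)`: the probability that a random homomorphism `Γ → G` is onto. -/
noncomputable def PP (Γ G : Type) [Group Γ] [Group G] : ℝ :=
  (Nat.card {φ : Γ →* G // Function.Surjective φ} : ℝ) / (Nat.card (Γ →* G) : ℝ)

/-- `(Γ, (G_i)_i)` is good: for every `ε > 0`, `P_Γ(G_i) > 1 - ε` for all but finitely many `i`. -/
def Good (Γ : Type) [Group Γ] {ι : Type} (G : ι → Type) [∀ i, Group (G i)] : Prop :=
  ∀ ε : ℝ, 0 < ε → {i | ¬ (1 - ε < PP Γ (G i))}.Finite

/-! ## `SL_2(K)` -/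

/-- `SL_2(K)` -/
abbrev SL (K : Type) [Field K] : Type := Matrix.SpecialLinearGroup (Fin 2) K

/-- `PSL_2(K)` -/
abbrev PSL (K : Type) [Field K] : Type := Matrix.ProjectiveSpecialLinearGroup (Fin 2) K

/-- 2 x 2 matrices -/
abbrev M2 (K : Type) : Type := Matrix (Fin 2) (Fin 2) K

section
variable {K : Type} [Field K]

/-- the trace -/
def tr (x : SL K) : K := x.1 0 0 + x.1 1 1

/-- `x = ±1` -/
def Sc (x : SL K) : Prop := x = 1 ∨ x = -1

/-- `κ(a,b,c) = a² + b² + c² - abc - 2` (the trace of a commutator) -/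
def kap (a b c : K) : K := a ^ 2 + b ^ 2 + c ^ 2 - a * b * c - 2

/-- `κ` of a pair -/
def kp (x y : SL K) : K := kap (tr x) (tr y) (tr (x * y))

end

/-! ## the four types of subgroups -/

section
variable {K : Type} [Field K]

/-- stabilizer of the line spanned by `v` -/
def Bor (v : Fin 2 → K) (hv : v ≠ 0) : Subgroup (SL K) where
  carrier := {x | ∃ c : K, (x : M2 K).mulVec v = c • v}
  one_mem' := ⟨1, by simp⟩
  mul_mem' := by
    rintro x y ⟨c, hc⟩ ⟨d, hd⟩
    refine ⟨d * c, ?_⟩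
    rw [Matrix.SpecialLinearGroup.coe_mul, ← Matrix.mulVec_mulVec, hd, Matrix.mulVec_smul, hc,
      smul_smul]
  inv_mem' := by
    rintro x ⟨c, hc⟩
    have h1 : ((x⁻¹ : SL K) : M2 K).mulVec ((x : M2 K).mulVec v) = v := by
      rw [Matrix.mulVec_mulVec, ← Matrix.SpecialLinearGroup.coe_mul, inv_mul_cancel,
        Matrix.SpecialLinearGroup.coe_one, Matrix.one_mulVec]
    have hc0 : c ≠ 0 := by
      rintro rfl
      rw [hc, zero_smul, Matrix.mulVec_zero] at h1
      exact hv h1.symm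
    refine ⟨c⁻¹, ?_⟩
    rw [hc, Matrix.mulVec_smul] at h1
    conv_rhs => rw [← h1]
    rw [smul_smul, inv_mul_cancel₀ hc0, one_smul]

/-- normalizer of the torus of `y` (used for `y` with nonzero discriminant) -/
def Nor (y : M2 K) : Subgroup (SL K) where
  carrier := {x | (x : M2 K) * y = y * (x : M2 K) ∨
    (x : M2 K) * y = ((y 0 0 + y 1 1) • (1 : M2 K) - y) * (x : M2 K)}
  one_mem' := Or.inl (by simp)
  mul_mem' := by
    rintro x z hx hz
    simp only [Set.mem_ofPred_eq, Matrix.SpecialLinearGroup.coe_mul] at hx hz ⊢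
    rcases hx with hx | hx <;> rcases hz with hz | hz
    · left; rw [mul_assoc, hz, ← mul_assoc, hx, mul_assoc]
    · right; rw [mul_assoc, hz, ← mul_assoc, mul_sub, hx]; simp [sub_mul, mul_assoc]
    · right; rw [mul_assoc, hz, ← mul_assoc, hx, mul_assoc]
    · left
      rw [mul_assoc, hz, ← mul_assoc, mul_sub, hx]
      simp [sub_mul, mul_assoc]
  inv_mem' := by
    rintro x hx
    simp only [Set.mem_ofPred_eq] at hx ⊢
    have h1 : ((x⁻¹ : SL K) : M2 K) * (x : M2 K) = 1 := by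
      rw [← Matrix.SpecialLinearGroup.coe_mul, inv_mul_cancel, Matrix.SpecialLinearGroup.coe_one]
    have h2 : (x : M2 K) * ((x⁻¹ : SL K) : M2 K) = 1 := by
      rw [← Matrix.SpecialLinearGroup.coe_mul, mul_inv_cancel, Matrix.SpecialLinearGroup.coe_one]
    generalize ((x⁻¹ : SL K) : M2 K) = w at h1 h2 ⊢
    rcases hx with hx | hx
    · left
      calc w * y = w * (y * ((x : M2 K) * w)) := by rw [h2, mul_one]
        _ = w * (y * (x : M2 K)) * w := by simp only [mul_assoc]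
        _ = w * ((x : M2 K) * y) * w := by rw [hx]
        _ = y * w := by rw [← mul_assoc, h1, one_mul]
    · right
      set t : K := y 0 0 + y 1 1
      have hx' : y * (x : M2 K) = (x : M2 K) * (t • (1 : M2 K) - y) := by
        rw [mul_sub, hx]; simp [sub_mul]
      calc w * y = w * (y * ((x : M2 K) * w)) := by rw [h2, mul_one]
        _ = w * (y * (x : M2 K)) * w := by simp only [mul_assoc]
        _ = w * ((x : M2 K) * (t • (1 : M2 K) - y)) * w := by rw [hx']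
        _ = (t • (1 : M2 K) - y) * w := by rw [← mul_assoc, h1, one_mul]

/-- entrywise inclusion `M_2(L) → M_2(K)` -/
def inc (L : Subfield K) (M : M2 L) : M2 K := M.map (fun z : L => (z : K))

lemma inc_mul (L : Subfield K) (M N : M2 L) : inc L (M * N) = inc L M * inc L N := by
  ext i j; simp [inc, Matrix.mul_apply]

lemma inc_one (L : Subfield K) : inc L (1 : M2 L) = 1 := by
  ext i j; fin_cases i <;> fin_cases j <;> simp [inc]

/-- the subgroup of all `x = c g M g⁻¹`, `c ∈ K`, `M ∈ M_2(L)` -/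
def HL (L : Subfield K) (g : GL (Fin 2) K) : Subgroup (SL K) where
  carrier := {x | ∃ (c : K) (M : M2 L), (x : M2 K) = c • ((g : M2 K) * inc L M * ((g⁻¹ : GL (Fin 2) K) : M2 K))}
  one_mem' := ⟨1, 1, by simp [inc_one]⟩
  mul_mem' := by
    rintro x y ⟨c, M, hx⟩ ⟨d, N, hy⟩
    refine ⟨c * d, M * N, ?_⟩
    have h2 : ((g⁻¹ : GL (Fin 2) K) : M2 K) * (g : M2 K) = 1 := by
      rw [← Units.val_mul, inv_mul_cancel, Units.val_one]
    rw [Matrix.SpecialLinearGroup.coe_mul, hx, hy, inc_mul, smul_mul_smul_comm]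
    congr 1
    calc (g : M2 K) * inc L M * ((g⁻¹ : GL (Fin 2) K) : M2 K) *
          ((g : M2 K) * inc L N * ((g⁻¹ : GL (Fin 2) K) : M2 K))
        = (g : M2 K) * inc L M * (((g⁻¹ : GL (Fin 2) K) : M2 K) * (g : M2 K)) * inc L N *
          ((g⁻¹ : GL (Fin 2) K) : M2 K) := by simp only [mul_assoc]
      _ = _ := by rw [h2]; simp only [mul_one, mul_assoc]
  inv_mem' := by
    rintro x ⟨c, M, hx⟩
    refine ⟨c, M.adjugate, ?_⟩
    have hadj : inc L M.adjugate = (inc L M).adjugate := by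
      ext i j
      fin_cases i <;> fin_cases j <;> simp [inc, Matrix.adjugate_fin_two]
    have h2 : ((g⁻¹ : GL (Fin 2) K) : M2 K) * (g : M2 K) = 1 := by
      rw [← Units.val_mul, inv_mul_cancel, Units.val_one]
    have h3 : (g : M2 K) * ((g⁻¹ : GL (Fin 2) K) : M2 K) = 1 := by
      rw [← Units.val_mul, mul_inv_cancel, Units.val_one]
    rw [Matrix.SpecialLinearGroup.coe_inv, hx, hadj]
    have hsm : ∀ (r : K) (A : M2 K), (r • A).adjugate = r • A.adjugate := by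
      intro r A
      ext i j
      fin_cases i <;> fin_cases j <;> simp [Matrix.adjugate_fin_two]
    rw [hsm, Matrix.adjugate_mul_distrib, Matrix.adjugate_mul_distrib]
    congr 1
    have hg : (g : M2 K).det * (((g⁻¹ : GL (Fin 2) K) : M2 K)).det = 1 := by
      rw [← Matrix.det_mul, h3, Matrix.det_one]
    have ha : ((g⁻¹ : GL (Fin 2) K) : M2 K).adjugate = (((g⁻¹ : GL (Fin 2) K) : M2 K)).det • (g : M2 K) := by
      have := Matrix.adjugate_mul ((g⁻¹ : GL (Fin 2) K) : M2 K)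
      calc ((g⁻¹ : GL (Fin 2) K) : M2 K).adjugate
          = ((g⁻¹ : GL (Fin 2) K) : M2 K).adjugate * (((g⁻¹ : GL (Fin 2) K) : M2 K) * (g : M2 K)) := by
            rw [h2, mul_one]
        _ = _ := by rw [← mul_assoc, this]; simp
    have hb : (g : M2 K).adjugate = (g : M2 K).det • ((g⁻¹ : GL (Fin 2) K) : M2 K) := by
      have := Matrix.adjugate_mul (g : M2 K)
      calc (g : M2 K).adjugate
          = (g : M2 K).adjugate * ((g : M2 K) * ((g⁻¹ : GL (Fin 2) K) : M2 K)) := by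
            rw [h3, mul_one]
        _ = _ := by rw [← mul_assoc, this]; simp
    rw [ha, hb]
    simp only [smul_mul_assoc, mul_smul_comm, smul_smul, mul_assoc]
    rw [hg, one_smul]

end

/-! ## the counting problems

After lifting to `SL_2(K)` and eliminating `y_s` every Fuchsian group of the question is described by a
list `ms` of periods and one of the following words. -/

/-- `free r`: no relation, `r` free variables; `zero`: `∏ x_i = ±1`; `comm`: `∏ x_i [a,b] = ±1`;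
`sq`: `∏ x_i a² = ±1`; `sq2`: `∏ x_i a² b² = ±1`. -/
inductive Wd : Type
  | free (r : ℕ) : Wd
  | zero : Wd
  | comm : Wd
  | sq : Wd
  | sq2 : Wd

/-- number of word variables -/
def Wd.n : Wd → ℕ
  | .free r => r
  | .zero => 0
  | .comm => 2
  | .sq => 1
  | .sq2 => 2

/-- the relation -/
def Wd.rel {K : Type} [Field K] : (W : Wd) → List (SL K) → (Fin W.n → SL K) → Prop
  | .free _, _, _ => True
  | .zero, xs, _ => Sc xs.prod
  | .comm, xs, w => Sc (xs.prod * cm (w (0 : Fin 2)) (w (1 : Fin 2)))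
  | .sq, xs, w => Sc (xs.prod * (w (0 : Fin 1)) ^ 2)
  | .sq2, xs, w => Sc (xs.prod * ((w (0 : Fin 2)) ^ 2 * (w (1 : Fin 2)) ^ 2))

section
variable {K : Type} [Field K]

/-- lists `x_1, …, x_d` in `H` with `x_i^{m_i} = ±1` -/
def Xs (ms : List ℕ) (H : Subgroup (SL K)) : Set (List (SL K)) :=
  {xs | List.Forall₂ (fun (m : ℕ) (x : SL K) => x ∈ H ∧ Sc (x ^ m)) ms xs}

/-- tuples in `H` satisfying the relations -/
def Tup (W : Wd) (ms : List ℕ) (H : Subgroup (SL K)) : Set (List (SL K) × (Fin W.n → SL K)) :=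
  {t | t.1 ∈ Xs ms H ∧ (∀ j, t.2 j ∈ H) ∧ W.rel t.1 t.2}

/-- the subgroup generated by a tuple and `-1` -/
def gn {n : ℕ} (t : List (SL K) × (Fin n → SL K)) : Subgroup (SL K) :=
  Subgroup.closure ({x | x ∈ t.1} ∪ Set.range t.2 ∪ {-1})

/-- the non-generating tuples -/
def Bad (W : Wd) (ms : List ℕ) (K : Type) [Field K] : Set (List (SL K) × (Fin W.n → SL K)) :=
  {t | t ∈ Tup W ms (⊤ : Subgroup (SL K)) ∧ gn t ≠ ⊤}

/-- there is an element of order dividing `m`, not `1`, in `PSL_2(K)` -/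
def Liv (K : Type) [Field K] (m : ℕ) : Prop := ∃ x : SL K, ¬ Sc x ∧ Sc (x ^ m)

/-- traces of the elements `≠ ±1` whose `m`-th power is `±1` -/
def Trs (K : Type) [Field K] (m : ℕ) : Set K := {τ | ∃ x : SL K, ¬ Sc x ∧ Sc (x ^ m) ∧ tr x = τ}

end

/-! ## the criterion -/

open Classical in
/-- the periods `m` that are not coprime to `|PSL_2(q)|` -/
noncomputable def live (q : ℕ) (ms : List ℕ) : List ℕ :=
  ms.filter (fun m => ¬ Nat.Coprime m (q * (q ^ 2 - 1)))

/-- all entries are even -/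
def allEven (l : List ℕ) : Prop := ∀ m ∈ l, Even m

/-- Triangle type: the three live periods are `m1, m2, m3`. -/
def Tri (K : Type) [Field K] (m1 m2 m3 : ℕ) : Prop :=
  -- the characteristic is `≥ 5` and divides no period
  Nat.Coprime (ringChar K) (6 * m1 * m2 * m3) ∧
  -- at most one period is even
  ¬ (Even m1 ∧ Even m2) ∧ ¬ (Even m1 ∧ Even m3) ∧ ¬ (Even m2 ∧ Even m3) ∧
  -- no image `A_4`, `A_5`
  (Nat.Coprime m1 6 ∨ Nat.Coprime m2 6 ∨ Nat.Coprime m3 6) ∧
  (5 ∣ Nat.card K ^ 2 - 1 → Nat.Coprime m1 30 ∨ Nat.Coprime m2 30 ∨ Nat.Coprime m3 30) ∧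
  -- no images in a Borel subgroup
  (Nat.gcd (Nat.gcd m1 m2) (Nat.card K - 1) = 1 ∨ Nat.gcd (Nat.gcd m1 m3) (Nat.card K - 1) = 1) ∧
  (Nat.gcd (Nat.gcd m1 m2) (Nat.card K - 1) = 1 ∨ Nat.gcd (Nat.gcd m2 m3) (Nat.card K - 1) = 1) ∧
  (Nat.gcd (Nat.gcd m1 m3) (Nat.card K - 1) = 1 ∨ Nat.gcd (Nat.gcd m2 m3) (Nat.card K - 1) = 1) ∧
  -- no images in a subgroup over a subfield
  (∀ τ1 ∈ Trs K m1, ∀ τ2 ∈ Trs K m2, ∀ τ3 ∈ Trs K m3, ∀ L : Subfield K,
    τ1 ^ 2 ∈ L → τ2 ^ 2 ∈ L → τ3 ^ 2 ∈ L → τ1 * τ2 * τ3 ∈ L → L = ⊤)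

/-- the criterion, for a list of live periods -/
def CritL (K : Type) [Field K] : Wd → List ℕ → Prop
  | .free r, l => 2 ≤ l.length + r ∧ ¬ (r = 0 ∧ l.length = 2 ∧ allEven l)
  | .comm, l => 1 ≤ l.length ∧ ¬ (l.length = 1 ∧ ∃ m ∈ l, ringChar K ∣ m)
  | .sq, l => 2 ≤ l.length ∧ ¬ (l.length = 2 ∧ allEven l)
  | .sq2, l => 1 ≤ l.length
  | .zero, l => 5 ≤ l.length ∨ (l.length = 4 ∧ ¬ allEven l) ∨
      (∃ m1 m2 m3 : ℕ, l = [m1, m2, m3] ∧ Tri K m1 m2 m3)

/-- the criterion -/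
def Crit (K : Type) [Field K] (W : Wd) (ms : List ℕ) : Prop := CritL K W (live (Nat.card K) ms)

/-! ## rank one bounds -/

/-- counting bounds of a subgroup that looks like `SL_2(Q)` -/
def RO {K : Type} [Field K] (H : Subgroup (SL K)) (Q : ℕ) : Prop :=
  Nat.card H ≤ 100 * Q ^ 3 ∧
  (∀ τ : K, Set.ncard {x : SL K | x ∈ H ∧ tr x = τ} ≤ 100 * Q ^ 2) ∧
  (∀ a ∈ H, ¬ Sc a → ∀ τ t : K,
    Set.ncard {x : SL K | x ∈ H ∧ tr x = τ ∧ tr (a * x) = t} ≤ 100 * Q) ∧
  (∀ a ∈ H, ¬ Sc a → ∀ c ∈ H, Set.ncard {b : SL K | b ∈ H ∧ b * a = c * b} ≤ 100 * Q) ∧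
  (∀ z ∈ H, ¬ Sc z → Set.ncard {a : SL K | a ∈ H ∧ tr (a⁻¹ * z) = tr a} ≤ 100 * Q ^ 2)

end Pool.FG
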