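import Pool.Agent.Work.MP_65e34f.Defs

/-!
# MP_65e34f_al : statements of the blocks

`q` is `Nat.card K`.  All bounds are inequalities of natural numbers.
-/

namespace Pool.FG

open Matrix
open scoped LinearAlgebra.Projectivization

/-! ## Part 1: counting matrices -/

/-- TRC: matrices of given determinant and trace. -/
def Stmt_TRC : Prop := ∀ (K : Type) [Field K] [Finite K] (δ τ : K), δ ≠ 0 →
  Nat.card K ^ 2 ≤ Set.ncard {M : M2 K | M.det = δ ∧ M 0 0 + M 1 1 = τ} + Nat.card K ∧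
  Set.ncard {M : M2 K | M.det = δ ∧ M 0 0 + M 1 1 = τ} ≤ Nat.card K ^ 2 + Nat.card K ∧
  Nat.card K ^ 2 ≤ Set.ncard {x : SL K | tr x = τ} + Nat.card K ∧
  Set.ncard {x : SL K | tr x = τ} ≤ Nat.card K ^ 2 + Nat.card K

/-- CRD: the order of `SL_2(K)`. -/
def Stmt_CRD : Prop := ∀ (K : Type) [Field K] [Finite K],
  Nat.card (SL K) = Nat.card K * (Nat.card K ^ 2 - 1)

/-- CNJ: non-scalar elements with the same trace are conjugate under `GL_2(K)`;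
hence the condition `x^m = ±1` depends on the trace only. -/
def Stmt_CNJ : Prop := ∀ (K : Type) [Field K],
  (∀ x y : SL K, ¬ Sc x → ¬ Sc y → tr x = tr y →
    ∃ g : GL (Fin 2) K, (g : M2 K) * (x : M2 K) = (y : M2 K) * (g : M2 K)) ∧
  (∀ (x y : SL K) (m : ℕ), ¬ Sc x → Sc (x ^ m) → tr y = tr x → Sc (y ^ m))

/-- CNC: conics `u² - s u v + v² + α u + β v + γ = 0`. -/
def Stmt_CNC : Prop := ∀ (K : Type) [Field K] [Finite K] (s α β γ : K),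
  Set.ncard {w : K × K | w.1 ^ 2 - s * w.1 * w.2 + w.2 ^ 2 + α * w.1 + β * w.2 + γ = 0}
    ≤ 2 * Nat.card K ∧
  (γ * (4 - s ^ 2) - α ^ 2 - β ^ 2 - s * α * β ≠ 0 →
    Nat.card K ≤
      Set.ncard {w : K × K | w.1 ^ 2 - s * w.1 * w.2 + w.2 ^ 2 + α * w.1 + β * w.2 + γ = 0} + 3)

/-- TWO: for a non-scalar `a`, the elements `x` with `tr x = τ`, `tr (a x) = t`. -/
def Stmt_TWO : Prop := ∀ (K : Type) [Field K] [Finite K] (a : SL K), ¬ Sc a → ∀ τ t : K,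
  Set.ncard {x : SL K | tr x = τ ∧ tr (a * x) = t} ≤ 2 * Nat.card K ∧
  (kap (tr a) τ t ≠ 2 → Nat.card K ≤ Set.ncard {x : SL K | tr x = τ ∧ tr (a * x) = t} + 3)

/-- ROS: the bounds for `SL_2(K)`. -/
def Stmt_ROS : Prop := ∀ (K : Type) [Field K] [Finite K],
  RO (⊤ : Subgroup (SL K)) (Nat.card K)

/-- ROL: the bounds for the subgroups over a subfield. -/
def Stmt_ROL : Prop := ∀ (K : Type) [Field K] [Finite K] (L : Subfield K) (g : GL (Fin 2) K),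
  RO (HL L g) (Nat.card L)

/-- SQR: square roots in `SL_2(K)`. -/
def Stmt_SQR : Prop := ∀ (K : Type) [Field K] [Finite K],
  (∀ z : SL K, ¬ Sc z → Set.ncard {a : SL K | a ^ 2 = z} ≤ 2) ∧
  (∀ a : SL K, Sc (a ^ 2) → Sc a ∨ tr a = 0) ∧
  (∀ a : SL K, tr a = 0 → Sc (a ^ 2)) ∧
  (∀ (z : SL K) (w : K), w ≠ 0 → tr z = w ^ 2 - 2 → ∃ a : SL K, a ^ 2 = z)

/-- TRM: there are at most `2m` traces of elements `x` with `x^m = ±1`. -/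
def Stmt_TRM : Prop := ∀ (K : Type) [Field K] [Finite K] (m : ℕ), 1 ≤ m →
  Set.ncard {τ : K | ∃ x : SL K, Sc (x ^ m) ∧ tr x = τ} ≤ 2 * m

/-- LIV: `PSL_2(K)` has an element `≠ 1` of order dividing `m` iff `m` is not coprime to its order. -/
def Stmt_LIV : Prop := ∀ (K : Type) [Field K] [Finite K] (m : ℕ), 1 ≤ m →
  (Liv K m ↔ ¬ Nat.Coprime m (Nat.card K * (Nat.card K ^ 2 - 1)))

/-- PHI: elements of order 5. -/
def Stmt_PHI : Prop := ∀ (K : Type) [Field K] [Finite K], 5 ∣ Nat.card K ^ 2 - 1 →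
  ∃ φ : K, φ ^ 2 = φ + 1

/-- UNQ: irreducible pairs with the same traces are conjugate. -/
def Stmt_UNQ : Prop := ∀ (K : Type) [Field K] (x y x' y' : SL K), kp x y ≠ 2 →
  tr x = tr x' → tr y = tr y' → tr (x * y) = tr (x' * y') →
  ∃ g : GL (Fin 2) K, (g : M2 K) * (x : M2 K) = (x' : M2 K) * (g : M2 K) ∧
    (g : M2 K) * (y : M2 K) = (y' : M2 K) * (g : M2 K)

/-- SIG: a pair whose traces lie (up to signs) in a proper subfield does not generate. -/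
def Stmt_SIG : Prop := ∀ (K : Type) [Field K] [Finite K] (x y : SL K), kp x y ≠ 2 →
  ∀ L : Subfield K, L ≠ ⊤ → tr x ^ 2 ∈ L → tr y ^ 2 ∈ L → tr (x * y) ^ 2 ∈ L →
  tr x * tr y * tr (x * y) ∈ L → Subgroup.closure {x, y, -1} ≠ ⊤

/-! ## Part 2: fibres of words -/

/-- COM: commutator fibres. -/
def Stmt_COM : Prop := ∃ C N : ℕ, ∀ (K : Type) [Field K] [Finite K], N ≤ Nat.card K →
  ∀ z : SL K, ¬ Sc z → tr z ≠ 2 →
    Nat.card K ^ 3 ≤ C * Set.ncard {w : SL K × SL K | cm w.1 w.2 = z}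

/-- SQT: fibres of `a² b²`. -/
def Stmt_SQT : Prop := ∃ C N : ℕ, ∀ (K : Type) [Field K] [Finite K], N ≤ Nat.card K →
  ∀ z : SL K, ¬ Sc z → Nat.card K ^ 3 ≤ C * Set.ncard {w : SL K × SL K | w.1 ^ 2 * w.2 ^ 2 = z}

/-! ## Part 3: upper bounds -/

/-- dimension of the set of homomorphisms, `d` live periods -/
def dimW : Wd → ℕ → ℕ
  | .free r, d => 2 * d + 3 * r
  | .zero, d => 2 * d - 3
  | .comm, d => 2 * d + 3
  | .sq, d => 2 * d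
  | .sq2, d => 2 * d + 3

/-- UPF: upper bounds for the words other than `zero`. -/
def Stmt_UPF : Prop := ∀ (W : Wd) (ds : List ℕ), W ≠ .zero → (ds ≠ [] ∨ ∃ r, W = .free r) →
  (∀ m ∈ ds, 1 ≤ m) → ∃ C : ℕ, ∀ (K : Type) [Field K] [Finite K] (H : Subgroup (SL K)) (Q : ℕ),
    1 ≤ Q → -1 ∈ H → RO H Q → (Tup W ds H).ncard ≤ C * Q ^ dimW W ds.length

/-- UPZ: upper bounds for `zero`. -/
def Stmt_UPZ : Prop := ∀ ds : List ℕ, 3 ≤ ds.length → (∀ m ∈ ds, 1 ≤ m) →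
  ∃ C : ℕ, ∀ (K : Type) [Field K] [Finite K] (H : Subgroup (SL K)) (Q : ℕ),
    1 ≤ Q → -1 ∈ H → RO H Q → (Tup .zero ds H).ncard ≤ C * Q ^ dimW .zero ds.length

/-- BOB: counting in a Borel subgroup. -/
def Stmt_BOB : Prop := ∀ (K : Type) [Field K] [Finite K] (v : Fin 2 → K) (hv : v ≠ 0),
  Nat.card (Bor v hv) ≤ Nat.card K ^ 2 ∧
  (∀ τ : K, Set.ncard {x : SL K | x ∈ Bor v hv ∧ tr x = τ} ≤ 2 * Nat.card K) ∧
  (∀ a ∈ Bor v hv, ∀ b ∈ Bor v hv, tr (cm a b) = 2)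

/-- exponent in a Borel subgroup -/
def dimB : Wd → ℕ → ℕ
  | .free r, d => d + 2 * r
  | .zero, d => d - 1
  | .comm, d => d + 3
  | .sq, d => d
  | .sq2, d => d + 2

/-- UPB: upper bounds in a Borel subgroup. -/
def Stmt_UPB : Prop :=
  (∀ (W : Wd) (ds : List ℕ), ds ≠ [] ∨ (W ≠ .sq ∧ W ≠ .zero) → (∀ m ∈ ds, 1 ≤ m) →
    ∃ C : ℕ, ∀ (K : Type) [Field K] [Finite K] (v : Fin 2 → K) (hv : v ≠ 0),
      (Tup W ds (Bor v hv)).ncard ≤ C * Nat.card K ^ dimB W ds.length) ∧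
  (∀ m : ℕ, 1 ≤ m → ∃ C : ℕ, ∀ (K : Type) [Field K] [Finite K], ¬ ringChar K ∣ m →
    ∀ (v : Fin 2 → K) (hv : v ≠ 0), (Tup .comm [m] (Bor v hv)).ncard ≤ C * Nat.card K ^ 3)

/-- discriminant of a matrix -/
def dsc {K : Type} [Field K] (y : M2 K) : K := (y 0 0 + y 1 1) ^ 2 - 4 * y.det

/-- TOB: counting in a torus normalizer. -/
def Stmt_TOB : Prop := ∀ (K : Type) [Field K] [Finite K] (y : M2 K), dsc y ≠ 0 →
  Set.ncard {x : SL K | (x : M2 K) * y = y * (x : M2 K)} ≤ 2 * Nat.card K ∧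
  Nat.card (Nor y) ≤ 4 * Nat.card K ∧
  (∀ τ : K, Set.ncard {x : SL K | (x : M2 K) * y = y * (x : M2 K) ∧ tr x = τ} ≤ 2) ∧
  (∀ x ∈ Nor y, (x : M2 K) * y ≠ y * (x : M2 K) → tr x = 0) ∧
  (∀ x ∈ Nor y, ∀ z ∈ Nor y, (x : M2 K) * y ≠ y * (x : M2 K) → (z : M2 K) * y ≠ y * (z : M2 K) →
    ((x * z : SL K) : M2 K) * y = y * ((x * z : SL K) : M2 K))

/-- number of even entries -/
def ev (ds : List ℕ) : ℕ := (ds.filter (fun m => m % 2 = 0)).length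

/-- exponent in a torus normalizer -/
def dimN : Wd → List ℕ → ℕ
  | .free r, ds => ev ds + r
  | .zero, ds => 2 * (ev ds / 2)
  | .comm, ds => 2 * (ev ds / 2) + 2
  | .sq, ds => 2 * (ev ds / 2) + 1
  | .sq2, ds => 2 * (ev ds / 2) + 2

/-- UPN: upper bounds in a torus normalizer. -/
def Stmt_UPN : Prop := ∀ (W : Wd) (ds : List ℕ), (∀ m ∈ ds, 1 ≤ m) →
  ∃ C : ℕ, ∀ (K : Type) [Field K] [Finite K] (y : M2 K), dsc y ≠ 0 →
    (Tup W ds (Nor y)).ncard ≤ C * Nat.card K ^ dimN W ds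

/-! ## Part 4: sums over subgroups -/

/-- RPB: there are `q + 1` Borel subgroups. -/
def Stmt_RPB : Prop := ∀ (W : Wd) (ds : List ℕ) (K : Type) [Field K] [Finite K] (B : ℕ),
  (∀ (v : Fin 2 → K) (hv : v ≠ 0), (Tup W ds (Bor v hv)).ncard ≤ B) →
  Set.ncard {t | t ∈ Tup W ds (⊤ : Subgroup (SL K)) ∧ ∃ (v : Fin 2 → K) (hv : v ≠ 0), gn t ≤ Bor v hv}
    ≤ (Nat.card K + 1) * B

/-- RPN: there are at most `q² + q + 1` torus normalizers. -/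
def Stmt_RPN : Prop := ∀ (W : Wd) (ds : List ℕ) (K : Type) [Field K] [Finite K] (B : ℕ),
  (∀ y : M2 K, dsc y ≠ 0 → (Tup W ds (Nor y)).ncard ≤ B) →
  Set.ncard {t | t ∈ Tup W ds (⊤ : Subgroup (SL K)) ∧ ∃ y : M2 K, dsc y ≠ 0 ∧ gn t ≤ Nor y}
    ≤ (Nat.card K ^ 2 + Nat.card K + 1) * B

/-- LSM: sum over the conjugates of the subgroup of a subfield. -/
def Stmt_LSM : Prop := ∀ (W : Wd) (ds : List ℕ) (K : Type) [Field K] [Finite K] (L : Subfield K) (B : ℕ),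
  (∀ g : GL (Fin 2) K, (Tup W ds (HL L g)).ncard ≤ B) →
  Nat.card L ^ 3 *
    Set.ncard {t | t ∈ Tup W ds (⊤ : Subgroup (SL K)) ∧ ∃ g : GL (Fin 2) K, gn t ≤ HL L g}
    ≤ 2 * Nat.card K ^ 3 * B

/-- SBF: subfields. -/
def Stmt_SBF : Prop :=
  (∃ C : ℕ, ∀ (K : Type) [Field K] [Finite K], Nat.card (Subfield K) ^ 4 ≤ C * Nat.card K) ∧
  (∀ (K : Type) [Field K] [Finite K] (L : Subfield K), L ≠ ⊤ → Nat.card L ^ 2 ≤ Nat.card K)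

/-- TYS: tuples generating a small irreducible subgroup. -/
def Stmt_TYS : Prop := ∀ (W : Wd) (ds : List ℕ), (∀ m ∈ ds, 1 ≤ m) → ∃ C : ℕ,
  ∀ (K : Type) [Field K] [Finite K],
    Set.ncard {t | t ∈ Tup W ds (⊤ : Subgroup (SL K)) ∧ Nat.card (gn t) ≤ 120 ∧
      ∃ x ∈ gn t, ∃ y ∈ gn t, kp x y ≠ 2} ≤ C * Nat.card K ^ 3

/-! ## Part 5: lower bounds -/

/-- PRO: many products are not scalar. -/
def Stmt_PRO : Prop := ∀ ds : List ℕ, ds ≠ [] → (∀ m ∈ ds, 1 ≤ m) → ∃ C N : ℕ,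
  ∀ (K : Type) [Field K] [Finite K], N ≤ Nat.card K → (∀ m ∈ ds, Liv K m) →
    Nat.card K ^ (2 * ds.length) ≤
      C * Set.ncard {xs | xs ∈ Xs ds (⊤ : Subgroup (SL K)) ∧ ¬ Sc xs.prod}

/-- PRT: many products have a trace outside a given set of at most 4 elements. -/
def Stmt_PRT : Prop := ∀ ds : List ℕ, 2 ≤ ds.length → (∀ m ∈ ds, 1 ≤ m) → ∃ C N : ℕ,
  ∀ (K : Type) [Field K] [Finite K], N ≤ Nat.card K → (∀ m ∈ ds, Liv K m) →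
    ∀ S : Set K, S.ncard ≤ 4 →
    Nat.card K ^ (2 * ds.length) ≤
      C * Set.ncard {xs | xs ∈ Xs ds (⊤ : Subgroup (SL K)) ∧ ¬ Sc xs.prod ∧ tr xs.prod ∉ S}

/-- condition for the lower bounds -/
def cl (K : Type) [Field K] : Wd → List ℕ → Prop
  | .free _, _ => True
  | .zero, l => 4 ≤ l.length
  | .comm, l => 1 ≤ l.length ∧ ¬ (l.length = 1 ∧ ∃ m ∈ l, ringChar K ∣ m)
  | .sq, l => 2 ≤ l.length
  | .sq2, l => 1 ≤ l.length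

/-- LOW for one word -/
def LowW (W : Wd) : Prop := ∀ ds : List ℕ, (∀ m ∈ ds, 1 ≤ m) → ∃ C N : ℕ,
  ∀ (K : Type) [Field K] [Finite K], N ≤ Nat.card K → (∀ m ∈ ds, Liv K m) → cl K W ds →
    Nat.card K ^ dimW W ds.length ≤ C * (Tup W ds (⊤ : Subgroup (SL K))).ncard

/-- LWF -/
def Stmt_LWF : Prop := ∀ r : ℕ, LowW (.free r)
/-- LWC -/
def Stmt_LWC : Prop := LowW .comm
/-- LWS -/
def Stmt_LWS : Prop := LowW .sq
/-- LWT -/
def Stmt_LWT : Prop := LowW .sq2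
/-- LWZ -/
def Stmt_LWZ : Prop := LowW .zero

/-! ## Part 6: subgroups of `SL_2(q)` (Dickson) -/

/-- points of the projective line over the algebraic closure -/
abbrev PF (K : Type) [Field K] : Type := ℙ (AlgebraicClosure K) (Fin 2 → AlgebraicClosure K)

noncomputable instance (K : Type) [Field K] : MulAction (SL K) (PF K) :=
  MulAction.compHom (PF K) (Matrix.SpecialLinearGroup.map (n := Fin 2)
    (algebraMap K (AlgebraicClosure K)))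

/-- `h` is parabolic -/
def Par {K : Type} [Field K] (h : SL K) : Prop := ¬ Sc h ∧ tr h ^ 2 = 4

/-- a common fixed point over the algebraic closure -/
def FixP {K : Type} [Field K] (H : Subgroup (SL K)) : Prop := ∃ P : PF K, ∀ h ∈ H, h • P = P

/-- a stable pair of points over the algebraic closure -/
def FixPair {K : Type} [Field K] (H : Subgroup (SL K)) : Prop :=
  ∃ P Q : PF K, P ≠ Q ∧ ∀ h ∈ H, (h • P = P ∧ h • Q = Q) ∨ (h • P = Q ∧ h • Q = P)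

/-- small group -/
def Sma {K : Type} [Field K] (H : Subgroup (SL K)) : Prop :=
  Nat.card H ≤ 120 ∧
    ((∀ h ∈ H, Sc (h ^ 2) ∨ Sc (h ^ 3) ∨ Sc (h ^ 4)) ∨
     (∀ h ∈ H, Sc (h ^ 2) ∨ Sc (h ^ 3) ∨ Sc (h ^ 5)))

/-- D0: fixed points. -/
def Stmt_D0 : Prop := ∀ (K : Type) [Field K] [Finite K],
  (∀ (x : SL K) (P : PF K), Sc x → x • P = P) ∧
  (∀ x : SL K, Par x → ∃ P : PF K, ∀ Q : PF K, x • Q = Q ↔ Q = P) ∧
  (∀ x : SL K, ¬ Sc x → ¬ Par x → ∃ P P' : PF K, P ≠ P' ∧ ∀ Q : PF K, x • Q = Q ↔ (Q = P ∨ Q = P'))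

/-- D5: from fixed points and pairs over the algebraic closure to subgroups over `K`. -/
def Stmt_D5 : Prop := ∀ (K : Type) [Field K] [Finite K] (H : Subgroup (SL K)), -1 ∈ H →
  (FixP H → (∃ (v : Fin 2 → K) (hv : v ≠ 0), H ≤ Bor v hv) ∨ ∃ y : M2 K, dsc y ≠ 0 ∧ H ≤ Nor y) ∧
  (FixPair H → (∃ (v : Fin 2 → K) (hv : v ≠ 0), H ≤ Bor v hv) ∨ (∃ y : M2 K, dsc y ≠ 0 ∧ H ≤ Nor y) ∨
    (Nat.card H ≤ 8 ∧ ∀ h ∈ H, Sc (h ^ 4)))

/-- D6: an irreducible subgroup contains an irreducible pair. -/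
def Stmt_D6 : Prop := ∀ (K : Type) [Field K] [Finite K] (H : Subgroup (SL K)), ¬ FixP H →
  ∃ x ∈ H, ∃ y ∈ H, kp x y ≠ 2

/-- ORB: orbit counting. -/
def Stmt_ORB : Prop := ∀ (G X : Type) [Group G] [Finite G] [MulAction G X] (Z : Subgroup G) (Y : Set X),
  (∀ z ∈ Z, ∀ y : X, z • y = y) → Y.Finite → (∀ g : G, ∀ y ∈ Y, g • y ∈ Y) →
  ∃ (t : ℕ) (y : Fin t → X), (∀ i, y i ∈ Y) ∧
    (∀ x ∈ Y, ∃! i : Fin t, x ∈ MulAction.orbit G (y i)) ∧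
    (∀ i, (MulAction.orbit G (y i)).ncard * Nat.card (MulAction.stabilizer G (y i)) = Nat.card G) ∧
    (∑ i, (MulAction.orbit G (y i)).ncard * Nat.card Z) +
      (∑ᶠ g : {g : G // g ∉ Z}, Set.ncard {x | x ∈ Y ∧ g.1 • x = x}) = t * Nat.card G

/-- D2: subgroups without parabolic elements. -/
def Stmt_D2 : Prop := ∀ (K : Type) [Field K] [Finite K] (H : Subgroup (SL K)), -1 ∈ H →
  (∀ h ∈ H, ¬ Par h) → FixP H ∨ FixPair H ∨ Sma H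

/-- fixed points of the parabolic elements of `H` -/
def Om {K : Type} [Field K] (H : Subgroup (SL K)) : Set (PF K) := {P | ∃ h ∈ H, Par h ∧ h • P = P}

/-- D3a: structure of a subgroup with parabolic elements; `z` is the number of scalars, `n = |Ω|`,
`a` the order of a Sylow `p`-subgroup. -/
def Stmt_D3a : Prop := ∀ (K : Type) [Field K] [Finite K] (H : Subgroup (SL K)), -1 ∈ H →
  (∃ h ∈ H, Par h) → ∃ z a k r n : ℕ,
    z = Set.ncard {x : SL K | Sc x} ∧ 2 ≤ a ∧ 1 ≤ k ∧ n = 1 + r * a ∧ k ∣ a - 1 ∧ (z = 1 → Even a) ∧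
    (Om H).ncard = n ∧ (∀ P ∈ Om H, ∀ Q ∈ Om H, ∃ h ∈ H, h • P = Q) ∧
    (∀ P ∈ Om H, Set.ncard {h : SL K | h ∈ H ∧ h • P = P ∧ tr h = 2} = a) ∧
    (∀ P ∈ Om H, Set.ncard {h : SL K | h ∈ H ∧ h • P = P} = z * a * k) ∧
    Nat.card H = z * n * a * k ∧
    Set.ncard {h : SL K | h ∈ H ∧ Par h} = z * n * (a - 1)

/-- large subgroup with parabolic elements -/
def Big {K : Type} [Field K] (H : Subgroup (SL K)) : Prop := ∃ a : ℕ, 3 ≤ a ∧ (Om H).ncard = a + 1 ∧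
  (∀ P ∈ Om H, Set.ncard {h : SL K | h ∈ H ∧ h • P = P ∧ tr h = 2} = a) ∧
  (∀ P ∈ Om H, a * (a - 1) ≤ Set.ncard {h : SL K | h ∈ H ∧ h • P = P})

/-- D3b: numerical classification. -/
def Stmt_D3b : Prop := ∀ (K : Type) [Field K] [Finite K] (H : Subgroup (SL K)), -1 ∈ H →
  (∃ h ∈ H, Par h) → FixP H ∨ FixPair H ∨ Sma H ∨ Big H

/-- D4: identification. -/
def Stmt_D4 : Prop := ∀ (K : Type) [Field K] [Finite K] (H : Subgroup (SL K)), -1 ∈ H → Big H →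
  H = ⊤ ∨ ∃ L : Subfield K, L ≠ ⊤ ∧ ∃ g : GL (Fin 2) K, H ≤ HL L g

/-- DIC: the subgroups of `SL_2(q)`. -/
def Stmt_DIC : Prop := ∀ (K : Type) [Field K] [Finite K] (H : Subgroup (SL K)), -1 ∈ H → H ≠ ⊤ →
  (∃ (v : Fin 2 → K) (hv : v ≠ 0), H ≤ Bor v hv) ∨
  (∃ y : M2 K, dsc y ≠ 0 ∧ H ≤ Nor y) ∨
  (Sma H ∧ ∃ x ∈ H, ∃ y ∈ H, kp x y ≠ 2) ∨
  (∃ L : Subfield K, L ≠ ⊤ ∧ ∃ g : GL (Fin 2) K, H ≤ HL L g)

/-! ## Part 7: good pairs -/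

/-- good, one word, all periods live -/
def GoodW (W : Wd) : Prop := ∀ ds : List ℕ, (∀ m ∈ ds, 1 ≤ m) → ∃ C N : ℕ,
  ∀ (K : Type) [Field K] [Finite K], N ≤ Nat.card K → (∀ m ∈ ds, Liv K m) → CritL K W ds →
    (Bad W ds K).ncard ^ 4 * Nat.card K ≤ C * (Tup W ds (⊤ : Subgroup (SL K))).ncard ^ 4

/-- GDN: all cases except the triangle type. -/
def Stmt_GDN : Prop := ∀ (W : Wd) (ds : List ℕ), (W = .zero → ds.length ≠ 3) → (∀ m ∈ ds, 1 ≤ m) →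
  ∃ C N : ℕ, ∀ (K : Type) [Field K] [Finite K], N ≤ Nat.card K → (∀ m ∈ ds, Liv K m) →
    CritL K W ds →
    (Bad W ds K).ncard ^ 4 * Nat.card K ≤ C * (Tup W ds (⊤ : Subgroup (SL K))).ncard ^ 4

/-- KAP: in the triangle type one of the two sign choices is irreducible. -/
def Stmt_KAP : Prop := ∀ (K : Type) [Field K] [Finite K] (m1 m2 m3 : ℕ), 1 ≤ m1 → 1 ≤ m2 → 1 ≤ m3 →
  Nat.Coprime (ringChar K) (6 * m1 * m2 * m3) →
  ¬ (Even m1 ∧ Even m2) → ¬ (Even m1 ∧ Even m3) → ¬ (Even m2 ∧ Even m3) →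
  ∀ τ1 ∈ Trs K m1, ∀ τ2 ∈ Trs K m2, ∀ τ3 ∈ Trs K m3, kap τ1 τ2 τ3 ≠ 2 ∨ kap τ1 τ2 (-τ3) ≠ 2

/-- TLO: lower bound in the triangle type. -/
def Stmt_TLO : Prop := ∃ C N : ℕ, ∀ (K : Type) [Field K] [Finite K] (m1 m2 m3 : ℕ), N ≤ Nat.card K →
  1 ≤ m1 → 1 ≤ m2 → 1 ≤ m3 → Liv K m1 → Liv K m2 → Liv K m3 →
  Nat.Coprime (ringChar K) (6 * m1 * m2 * m3) →
  ¬ (Even m1 ∧ Even m2) → ¬ (Even m1 ∧ Even m3) → ¬ (Even m2 ∧ Even m3) →
  Nat.card K ^ 3 ≤ C * (Tup .zero [m1, m2, m3] (⊤ : Subgroup (SL K))).ncard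

/-- TGO: in the good triangle case there are few non-generating triples. -/
def Stmt_TGO : Prop := ∀ m1 m2 m3 : ℕ, 1 ≤ m1 → 1 ≤ m2 → 1 ≤ m3 → ∃ C : ℕ,
  ∀ (K : Type) [Field K] [Finite K], Tri K m1 m2 m3 →
    (Bad .zero [m1, m2, m3] K).ncard ≤ C * Nat.card K ^ 2

/-- GDT: the triangle type. -/
def Stmt_GDT : Prop := ∀ ds : List ℕ, ds.length = 3 → (∀ m ∈ ds, 1 ≤ m) → ∃ C N : ℕ,
  ∀ (K : Type) [Field K] [Finite K], N ≤ Nat.card K → (∀ m ∈ ds, Liv K m) → CritL K .zero ds →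
    (Bad .zero ds K).ncard ^ 4 * Nat.card K ≤ C * (Tup .zero ds (⊤ : Subgroup (SL K))).ncard ^ 4

/-! ## Part 8: bad pairs -/

/-- BTV: the cases where no homomorphism is onto. -/
def Stmt_BTV : Prop := ∀ (W : Wd) (ds : List ℕ) (K : Type) [Field K] [Finite K], 4 ≤ Nat.card K →
  (match W with
    | .free r => ds.length + r ≤ 1
    | .zero => ds.length ≤ 2
    | .comm => ds.length = 0
    | .sq => ds.length ≤ 1
    | .sq2 => ds.length = 0) →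
  ∀ t ∈ Tup W ds (⊤ : Subgroup (SL K)), gn t ≠ ⊤

/-- BF2: two even periods, free product. -/
def Stmt_BF2 : Prop := ∀ m1 m2 : ℕ, 1 ≤ m1 → 1 ≤ m2 → Even m1 → Even m2 → ∃ C N : ℕ,
  ∀ (K : Type) [Field K] [Finite K], N ≤ Nat.card K →
    (Tup (.free 0) [m1, m2] (⊤ : Subgroup (SL K))).ncard ≤ C * (Bad (.free 0) [m1, m2] K).ncard

/-- BC1: genus one, one live period divisible by the characteristic. -/
def Stmt_BC1 : Prop := ∀ m : ℕ, 1 ≤ m → ∃ C N : ℕ,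
  ∀ (K : Type) [Field K] [Finite K], N ≤ Nat.card K → ringChar K ∣ m →
    (Tup .comm [m] (⊤ : Subgroup (SL K))).ncard ≤ C * (Bad .comm [m] K).ncard

/-- BS2: one crosscap, two even periods. -/
def Stmt_BS2 : Prop := ∀ m1 m2 : ℕ, 1 ≤ m1 → 1 ≤ m2 → Even m1 → Even m2 → ∃ C N : ℕ,
  ∀ (K : Type) [Field K] [Finite K], N ≤ Nat.card K →
    (Tup .sq [m1, m2] (⊤ : Subgroup (SL K))).ncard ≤ C * (Bad .sq [m1, m2] K).ncard

/-- BZ4: genus zero, four even periods. -/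
def Stmt_BZ4 : Prop := ∀ m1 m2 m3 m4 : ℕ, 1 ≤ m1 → 1 ≤ m2 → 1 ≤ m3 → 1 ≤ m4 →
  Even m1 → Even m2 → Even m3 → Even m4 → ∃ C N : ℕ,
  ∀ (K : Type) [Field K] [Finite K], N ≤ Nat.card K →
    (Tup .zero [m1, m2, m3, m4] (⊤ : Subgroup (SL K))).ncard ≤
      C * (Bad .zero [m1, m2, m3, m4] K).ncard

/-- PRM: the counts do not depend on the order of the periods. -/
def Stmt_PRM : Prop := ∀ (W : Wd) (ds es : List ℕ) (K : Type) [Field K] [Finite K], ds.Perm es →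
  (Tup W ds (⊤ : Subgroup (SL K))).ncard = (Tup W es (⊤ : Subgroup (SL K))).ncard ∧
  (Bad W ds K).ncard = (Bad W es K).ncard

/-- BND: bounded characteristic, triangle type. -/
def Stmt_BND : Prop := ∀ m1 m2 m3 : ℕ, 1 ≤ m1 → 1 ≤ m2 → 1 ≤ m3 → ∃ N : ℕ,
  ∀ (K : Type) [Field K] [Finite K], N ≤ Nat.card K →
    ¬ Nat.Coprime (ringChar K) (6 * m1 * m2 * m3) →
    ∀ t ∈ Tup .zero [m1, m2, m3] (⊤ : Subgroup (SL K)), gn t ≠ ⊤

/-- hypotheses common to the following bad triangle cases -/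
def Hyp3 (K : Type) [Field K] (m1 m2 m3 : ℕ) : Prop :=
  1 ≤ m1 ∧ 1 ≤ m2 ∧ 1 ≤ m3 ∧ Liv K m1 ∧ Liv K m2 ∧ Liv K m3 ∧
  Nat.Coprime (ringChar K) (6 * m1 * m2 * m3)

/-- conclusion common to the following bad triangle cases -/
def Many3 (K : Type) [Field K] (C m1 m2 m3 : ℕ) : Prop :=
  Nat.card K ^ 3 ≤ C * (Bad .zero [m1, m2, m3] K).ncard

/-- TEV: two even periods. -/
def Stmt_TEV : Prop := ∃ C N : ℕ, ∀ (K : Type) [Field K] [Finite K] (m1 m2 m3 : ℕ),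
  N ≤ Nat.card K → Hyp3 K m1 m2 m3 → Even m2 → Even m3 → Many3 K C m1 m2 m3

/-- TBO: triples in a Borel subgroup. -/
def Stmt_TBO : Prop := ∃ C N : ℕ, ∀ (K : Type) [Field K] [Finite K] (m1 m2 m3 : ℕ),
  N ≤ Nat.card K → Hyp3 K m1 m2 m3 →
  ¬ (Even m1 ∧ Even m2) → ¬ (Even m1 ∧ Even m3) → ¬ (Even m2 ∧ Even m3) →
  Nat.gcd (Nat.gcd m1 m2) (Nat.card K - 1) ≠ 1 → Nat.gcd (Nat.gcd m1 m3) (Nat.card K - 1) ≠ 1 →
  Many3 K C m1 m2 m3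

/-- TSU: triples over a subfield. -/
def Stmt_TSU : Prop := ∃ C N : ℕ, ∀ (K : Type) [Field K] [Finite K] (m1 m2 m3 : ℕ),
  N ≤ Nat.card K → Hyp3 K m1 m2 m3 →
  ¬ (Even m1 ∧ Even m2) → ¬ (Even m1 ∧ Even m3) → ¬ (Even m2 ∧ Even m3) →
  (∃ τ1 ∈ Trs K m1, ∃ τ2 ∈ Trs K m2, ∃ τ3 ∈ Trs K m3, ∃ L : Subfield K,
    τ1 ^ 2 ∈ L ∧ τ2 ^ 2 ∈ L ∧ τ3 ^ 2 ∈ L ∧ τ1 * τ2 * τ3 ∈ L ∧ L ≠ ⊤) →
  Many3 K C m1 m2 m3

/-- ICO: small triples. -/
def Stmt_ICO : Prop := ∀ (K : Type) [Field K] [Finite K], (2 : K) ≠ 0 → (3 : K) ≠ 0 →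
  ∀ k1 k2 k3 : ℕ,
    ((k1, k2, k3) = (2, 3, 3) ∨ (k1, k2, k3) = (3, 3, 3) ∨
      ((∃ φ : K, φ ^ 2 = φ + 1) ∧ (5 : K) ≠ 0 ∧
        ((k1, k2, k3) = (2, 3, 5) ∨ (k1, k2, k3) = (2, 5, 5) ∨ (k1, k2, k3) = (3, 3, 5) ∨
          (k1, k2, k3) = (3, 5, 5) ∨ (k1, k2, k3) = (5, 5, 5)))) →
    ∃ x y : SL K, kp x y ≠ 2 ∧ Sc (x ^ k1) ∧ Sc (y ^ k2) ∧ Sc ((x * y) ^ k3) ∧
      Nat.card (Subgroup.closure {x, y, -1} : Subgroup (SL K)) ≤ 120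

/-- TIC: triples with image `A_4` or `A_5`. -/
def Stmt_TIC : Prop := ∃ C N : ℕ, ∀ (K : Type) [Field K] [Finite K] (m1 m2 m3 : ℕ),
  N ≤ Nat.card K → Hyp3 K m1 m2 m3 →
  ¬ (Even m1 ∧ Even m2) → ¬ (Even m1 ∧ Even m3) → ¬ (Even m2 ∧ Even m3) →
  ((¬ Nat.Coprime m1 6 ∧ ¬ Nat.Coprime m2 6 ∧ ¬ Nat.Coprime m3 6) ∨
    (5 ∣ Nat.card K ^ 2 - 1 ∧ ¬ Nat.Coprime m1 30 ∧ ¬ Nat.Coprime m2 30 ∧ ¬ Nat.Coprime m3 30)) →
  Many3 K C m1 m2 m3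

/-- BDT: the triangle type. -/
def Stmt_BDT : Prop := ∀ m1 m2 m3 : ℕ, 1 ≤ m1 → 1 ≤ m2 → 1 ≤ m3 → ∃ C N : ℕ,
  ∀ (K : Type) [Field K] [Finite K], N ≤ Nat.card K → Liv K m1 → Liv K m2 → Liv K m3 →
    ¬ Tri K m1 m2 m3 →
    (Tup .zero [m1, m2, m3] (⊤ : Subgroup (SL K))).ncard ≤ C * (Bad .zero [m1, m2, m3] K).ncard

/-- BDL: all bad cases. -/
def Stmt_BDL : Prop := ∀ (W : Wd) (ds : List ℕ), (∀ m ∈ ds, 1 ≤ m) → ∃ C N : ℕ,
  ∀ (K : Type) [Field K] [Finite K], N ≤ Nat.card K → (∀ m ∈ ds, Liv K m) → ¬ CritL K W ds →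
    (Tup W ds (⊤ : Subgroup (SL K))).ncard ≤ C * (Bad W ds K).ncard

/-! ## Part 9: from live periods to all periods, and to the groups -/

/-- FLT: periods that are not live do not matter. -/
def Stmt_FLT : Prop := ∀ (W : Wd) (ms : List ℕ) (K : Type) [Field K] [Finite K],
  (∀ m ∈ ms, 1 ≤ m) → ∃ c : ℕ, 0 < c ∧
    (Tup W ms (⊤ : Subgroup (SL K))).ncard =
      c * (Tup W (live (Nat.card K) ms) (⊤ : Subgroup (SL K))).ncard ∧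
    (Bad W ms K).ncard = c * (Bad W (live (Nat.card K) ms) K).ncard

/-- GOO: good, all periods. -/
def Stmt_GOO : Prop := ∀ (W : Wd) (ms : List ℕ), (∀ m ∈ ms, 1 ≤ m) → ∃ C N : ℕ,
  ∀ (K : Type) [Field K] [Finite K], N ≤ Nat.card K → Crit K W ms →
    (Bad W ms K).ncard ^ 4 * Nat.card K ≤ C * (Tup W ms (⊤ : Subgroup (SL K))).ncard ^ 4

/-- BAA: bad, all periods. -/
def Stmt_BAA : Prop := ∀ (W : Wd) (ms : List ℕ), (∀ m ∈ ms, 1 ≤ m) → ∃ C N : ℕ,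
  ∀ (K : Type) [Field K] [Finite K], N ≤ Nat.card K → ¬ Crit K W ms →
    (Tup W ms (⊤ : Subgroup (SL K))).ncard ≤ C * (Bad W ms K).ncard

/-- word of an oriented Fuchsian group of genus 0 or 1 -/
def wdO (g s : ℕ) : Wd := if s = 0 then (if g = 0 then .zero else .comm) else .free (2 * g + s - 1)

/-- word of a non-oriented Fuchsian group of genus 1 or 2 -/
def wdN (g s : ℕ) : Wd := if s = 0 then (if g = 1 then .sq else .sq2) else .free (g + s - 1)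

/-- RDO: `P_Γ(PSL_2(K))` in terms of tuples, oriented. -/
def Stmt_RDO : Prop := ∀ (g d s : ℕ) (m : Fin d → ℕ) (K : Type) [Field K] [Finite K], g ≤ 1 →
  PP (FuchsO g d s m) (PSL K) = 1 -
    ((Bad (wdO g s) (List.ofFn m) K).ncard : ℝ) /
      ((Tup (wdO g s) (List.ofFn m) (⊤ : Subgroup (SL K))).ncard : ℝ)

/-- RDN: `P_Γ(PSL_2(K))` in terms of tuples, non-oriented. -/
def Stmt_RDN : Prop := ∀ (g d s : ℕ) (m : Fin d → ℕ) (K : Type) [Field K] [Finite K],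
  1 ≤ g → g ≤ 2 →
  PP (FuchsN g d s m) (PSL K) = 1 -
    ((Bad (wdN g s) (List.ofFn m) K).ncard : ℝ) /
      ((Tup (wdN g s) (List.ofFn m) (⊤ : Subgroup (SL K))).ncard : ℝ)

/-- FIN: the theorem. `(G_i)` is a family of pairwise non-isomorphic groups `PSL_2(K_i)`,
`K_i` finite fields with at least 4 elements. -/
def Stmt_FIN : Prop := ∀ (ι : Type) (G : ι → Type) [∀ i, Group (G i)]
  (K : ι → Type) [∀ i, Field (K i)] [∀ i, Finite (K i)],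
  (∀ i, 4 ≤ Nat.card (K i)) → (∀ i, Nonempty (G i ≃* PSL (K i))) →
  (∀ i j, i ≠ j → IsEmpty (G i ≃* G j)) →
  (∀ (g d s : ℕ) (m : Fin d → ℕ), (∀ i, 2 ≤ m i) → g ≤ 1 →
    (Good (FuchsO g d s m) G ↔ {i | ¬ Crit (K i) (wdO g s) (List.ofFn m)}.Finite)) ∧
  (∀ (g d s : ℕ) (m : Fin d → ℕ), (∀ i, 2 ≤ m i) → 1 ≤ g → g ≤ 2 →
    (Good (FuchsN g d s m) G ↔ {i | ¬ Crit (K i) (wdN g s) (List.ofFn m)}.Finite))

end Pool.FG
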